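import Pool.Agent.Mg.F942673a.Ga2e8c0

set_option autoImplicit false

namespace Pool.Agent.Results.MP_942673_co.Dobbertin

open Pool.Agent.MP_942673_co

/-- An APN function that is CCZ-equivalent to a switching neighbour `G + f·s` of a function `G`
in the CCZ-class of the Dobbertin power map has algebraic degree less than `n = 5 k`. -/
theorem result :
    ∀ k n : ℕ, 2 ≤ k → n = 5 * k →
      ∀ (K : Type) [Field K] (e : K ≃+ (Fin n → ZMod 2))
        (G F : (Fin n → ZMod 2) → (Fin n → ZMod 2)) (s : Fin n → ZMod 2)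
        (f : (Fin n → ZMod 2) → ZMod 2),
        CCZ (fun x => e (e.symm x ^ (2 ^ (4 * k) + 2 ^ (3 * k) + 2 ^ (2 * k) + 2 ^ k - 1))) G →
        CCZ (fun x => G x + f x • s) F →
        (∀ a : Fin n → ZMod 2, a ≠ 0 → ∀ b : Fin n → ZMod 2,
          (Finset.univ.filter (fun x : Fin n → ZMod 2 => F (x + a) + F x = b)).card ≤ 2) →
        ¬ ∃ i : Fin n, ∃ P : MvPolynomial (Fin n) (ZMod 2),
            (∀ j : Fin n, MvPolynomial.degreeOf j P ≤ 1) ∧
            (∀ x : Fin n → ZMod 2, MvPolynomial.eval x P = F x i) ∧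
            P.totalDegree = n := by
  rintro k n hk rfl K _ e G F s f hG hF hA
  obtain ⟨h4, h16⟩ := dob_congr hk e (fun _ => rfl)
  have h0 : ∑ x, F x = 0 := by
    by_cases hs : s = 0
    · subst hs
      have h1 : (1 : Fin (5 * k) → ZMod 2) ≠ 0 :=
        fun h => one_ne_zero (congrFun h ⟨0, by omega⟩)
      refine sum_eq_zero_of_tri (by omega) h1 (f := fun _ => 0) h4 h16 hG ?_ hA
      simpa using hF
    · exact sum_eq_zero_of_tri (by omega) hs h4 h16 hG hF hA
  rintro ⟨i, P, h1, h2, h3⟩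
  refine sum_eval_ne_zero (by omega) h1 h3 ?_
  simp only [h2]
  rw [← Finset.sum_apply, h0]
  rfl

end Pool.Agent.Results.MP_942673_co.Dobbertin
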